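import Mathlib

namespace Pool.Agent.Results.MP_6c91b3_co.GirthSix

open SimpleGraph Finset

/-- Exactly half of the vertices have degree 2 and exactly half have degree 3. -/
def D23 {n : ℕ} (G : SimpleGraph (Fin n)) : Prop :=
  2 * {v | (G.neighborSet v).ncard = 2}.ncard = n ∧ 2 * {v | (G.neighborSet v).ncard = 3}.ncard = n

/-- A smallest graph of girth `g` in the class. -/
def Extremal (g : ℕ) {n : ℕ} (G : SimpleGraph (Fin n)) : Prop :=
  D23 G ∧ G.girth = g ∧ ∀ (m : ℕ) (H : SimpleGraph (Fin m)), D23 H → H.girth = g → n ≤ m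

section
variable {V : Type} {G : SimpleGraph V}

lemma no3 (h : 6 ≤ G.egirth) {a b c : V} (h1 : G.Adj a b) (h2 : G.Adj b c) (h3 : G.Adj c a) :
    False := by
  have := le_egirth.1 h a (.cons h1 (.cons h2 (.cons h3 .nil))) (by
    have := h1.ne; have := h2.ne; have := h3.ne
    simp [Walk.isCycle_def, Walk.isTrail_def]; grind)
  simp at this
  exact absurd this (by decide)

lemma no4 (h : 6 ≤ G.egirth) {a b c d : V} (h1 : G.Adj a b) (h2 : G.Adj b c) (h3 : G.Adj c d)
    (h4 : G.Adj d a) (hac : a ≠ c) (hbd : b ≠ d) : False := by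
  have := le_egirth.1 h a (.cons h1 (.cons h2 (.cons h3 (.cons h4 .nil)))) (by
    have := h1.ne; have := h2.ne; have := h3.ne; have := h4.ne
    simp [Walk.isCycle_def, Walk.isTrail_def]; grind)
  simp at this
  exact absurd this (by decide)

lemma no5 (h : 6 ≤ G.egirth) {a b c d e : V} (h1 : G.Adj a b) (h2 : G.Adj b c) (h3 : G.Adj c d)
    (h4 : G.Adj d e) (h5 : G.Adj e a) : False := by
  have n1 : a ≠ c := by rintro rfl; exact no3 h h3 h4 h5
  have n2 : a ≠ d := by rintro rfl; exact no3 h h1 h2 h3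
  have n3 : b ≠ d := by rintro rfl; exact no3 h h1 h4 h5
  have n4 : b ≠ e := by rintro rfl; exact no3 h h2 h3 h4
  have n5 : c ≠ e := by rintro rfl; exact no3 h h1 h2 h5
  have := le_egirth.1 h a (.cons h1 (.cons h2 (.cons h3 (.cons h4 (.cons h5 .nil))))) (by
    have := h1.ne; have := h2.ne; have := h3.ne; have := h4.ne; have := h5.ne
    simp [Walk.isCycle_def, Walk.isTrail_def]; grind)
  simp at this
  exact absurd this (by decide)

lemma six_le (h3 : ∀ a b, G.Adj a b → ∀ c, G.Adj b c → ¬ G.Adj c a)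
    (h4 : ∀ a b, G.Adj a b → ∀ c, G.Adj b c → ∀ d, G.Adj c d → G.Adj d a → a = c ∨ b = d)
    (h5 : ∀ a b, G.Adj a b → ∀ c, G.Adj b c → ∀ d, G.Adj c d → ∀ e, G.Adj d e → ¬ G.Adj e a) :
    6 ≤ G.egirth := by
  rw [le_egirth]
  intro a w hw
  have := hw.three_le_length
  match w, hw, this with
  | .cons e1 (.cons e2 (.cons e3 .nil)), _, _ => exact absurd e3 (h3 _ _ e1 _ e2)
  | .cons e1 (.cons e2 (.cons e3 (.cons e4 .nil))), hw, _ =>
    have := h4 _ _ e1 _ e2 _ e3 e4
    simp [Walk.isCycle_def, Walk.isTrail_def] at hw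
    grind
  | .cons e1 (.cons e2 (.cons e3 (.cons e4 (.cons e5 .nil)))), _, _ =>
    exact absurd e5 (h5 _ _ e1 _ e2 _ e3 _ e4)
  | .cons e1 (.cons e2 (.cons e3 (.cons e4 (.cons e5 (.cons e6 p))))), _, _ =>
    simp only [Walk.length_cons]
    exact_mod_cast (by omega : 6 ≤ p.length + 1 + 1 + 1 + 1 + 1 + 1)

end

lemma other {m : ℕ} (H : SimpleGraph (Fin m)) [DecidableRel H.Adj] (x y : Fin m)
    (h : 2 ≤ H.degree x) : ∃ z, H.Adj x z ∧ z ≠ y := by
  obtain ⟨z, hz, hne⟩ := exists_mem_ne (s := H.neighborFinset x) (by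
    rw [card_neighborFinset_eq_degree]; omega) y
  exact ⟨z, (H.mem_neighborFinset _ _).1 hz, hne⟩

lemma other2 {m : ℕ} (H : SimpleGraph (Fin m)) [DecidableRel H.Adj] (x y : Fin m)
    (h : 3 ≤ H.degree x) : ∃ z w, H.Adj x z ∧ H.Adj x w ∧ z ≠ y ∧ w ≠ y ∧ z ≠ w := by
  have : 1 < ((H.neighborFinset x).erase y).card := by
    have := pred_card_le_card_erase (s := H.neighborFinset x) (a := y)
    rw [card_neighborFinset_eq_degree] at this
    omega
  obtain ⟨z, hz, w, hw, hne⟩ := one_lt_card.1 this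
  simp only [mem_erase, mem_neighborFinset] at hz hw
  exact ⟨z, w, hz.2, hw.2, hz.1, hw.1, hne⟩

lemma lower (m : ℕ) (H : SimpleGraph (Fin m)) (hD : D23 H) (hg : H.girth = 6) : 12 ≤ m := by
  classical
  have hdeg : ∀ v, (H.neighborSet v).ncard = H.degree v := fun v => by
    rw [Set.ncard_eq_toFinset_card']; rfl
  have h6 : 6 ≤ H.egirth := by
    have : H.egirth ≠ ⊤ := by
      intro h; simp [girth, h] at hg
    rw [← ENat.natCast_toNat this]
    exact_mod_cast hg.ge
  obtain ⟨h2, h3⟩ := hD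
  simp only [hdeg] at h2 h3
  let S := univ.filter (fun v => H.degree v = 2)
  let T := univ.filter (fun v => H.degree v = 3)
  have hS : 2 * S.card = m := by
    refine Eq.trans ?_ h2
    rw [← Set.ncard_coe_finset]; simp [S]
  have hT : 2 * T.card = m := by
    refine Eq.trans ?_ h3
    rw [← Set.ncard_coe_finset]; simp [T]
  have hST : Disjoint S T := by
    rw [disjoint_filter]; intro v _ h1 h2; omega
  have hU : S ∪ T = univ := by
    apply eq_univ_of_card
    rw [card_union_of_disjoint hST, Fintype.card_fin]; omega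
  have hall : ∀ v, H.degree v = 2 ∨ H.degree v = 3 := by
    intro v
    have : v ∈ S ∪ T := by rw [hU]; exact mem_univ v
    simpa [S, T] using this
  have hsum : ∑ v, H.degree v = 2 * S.card + 3 * T.card := by
    rw [← hU, sum_union hST, sum_congr rfl (s₁ := S) (g := fun _ => 2) (fun v hv => (mem_filter.1 hv).2),
      sum_congr rfl (s₁ := T) (g := fun _ => 3) (fun v hv => (mem_filter.1 hv).2)]
    simp [mul_comm]
  rw [sum_degrees_eq_twice_card_edges] at hsum
  have hm : m ≠ 0 := by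
    rintro rfl
    have : H = ⊥ := Subsingleton.elim _ _
    rw [this] at hg
    simp at hg
  obtain ⟨u, hu, v, hv, huv⟩ : ∃ u ∈ T, ∃ v ∈ T, H.Adj u v := by
    by_contra hcon
    push Not at hcon
    have := card_mul_le_card_mul (s := T) (t := S) (fun a b => H.Adj a b) (m := 3) (n := 2)
      (by
        intro a ha
        rw [← (mem_filter.1 ha).2, ← card_neighborFinset_eq_degree]
        apply card_le_card
        intro b hb
        rw [mem_neighborFinset] at hb
        rw [mem_bipartiteAbove]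
        refine ⟨?_, hb⟩
        rcases hall b with h | h
        · simp [S, h]
        · exact absurd hb (hcon a ha b (by simp [T, h])))
      (by
        intro b hb
        rw [← (mem_filter.1 hb).2, ← card_neighborFinset_eq_degree]
        apply card_le_card
        intro a ha
        rw [mem_bipartiteBelow] at ha
        rw [mem_neighborFinset]
        exact ha.2.symm)
    omega
  have ge2 : ∀ v, 2 ≤ H.degree v := fun v => by have := hall v; omega
  obtain ⟨a, b, ha, hb, a1, b1, ab⟩ := other2 H u v (mem_filter.1 hu).2.ge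
  obtain ⟨c, d, hc, hd, c1, d1, cd⟩ := other2 H v u (mem_filter.1 hv).2.ge
  obtain ⟨a', ha', a2⟩ := other H a u (ge2 _)
  obtain ⟨b', hb', b2⟩ := other H b u (ge2 _)
  obtain ⟨c', hc', c2⟩ := other H c v (ge2 _)
  obtain ⟨d', hd', d2⟩ := other H d v (ge2 _)
  have hnd : [u, v, a, b, c, d, a', b', c', d'].Nodup := by
    have s1 := huv.symm; have s2 := ha.symm; have s3 := hb.symm; have s4 := hc.symm
    have s5 := hd.symm; have s6 := ha'.symm; have s7 := hb'.symm; have s8 := hc'.symm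
    have s9 := hd'.symm
    simp only [List.nodup_cons, List.mem_cons, List.not_mem_nil, or_false, not_or,
      List.nodup_nil, and_true, not_false_iff]
    refine ⟨⟨?_, ?_, ?_, ?_, ?_, ?_, ?_, ?_, ?_⟩, ⟨?_, ?_, ?_, ?_, ?_, ?_, ?_, ?_⟩,
      ⟨?_, ?_, ?_, ?_, ?_, ?_, ?_⟩, ⟨?_, ?_, ?_, ?_, ?_, ?_⟩, ⟨?_, ?_, ?_, ?_, ?_⟩,
      ⟨?_, ?_, ?_, ?_⟩, ⟨?_, ?_, ?_⟩, ⟨?_, ?_⟩, ?_⟩ <;> rintro rfl <;>
    first
      | contradiction
      | exact absurd ‹H.Adj _ _› (H.irrefl)
      | exact no3 h6 huv hc ‹_›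
      | exact no3 h6 huv hd ‹_›
      | exact no3 h6 s1 ha ‹_›
      | exact no3 h6 s1 hb ‹_›
      | exact no3 h6 ha ha' ‹_›
      | exact no3 h6 hb hb' ‹_›
      | exact no3 h6 hc hc' ‹_›
      | exact no3 h6 hd hd' ‹_›
      | exact no4 h6 s1 ha ha' ‹_› (Ne.symm a1) (Ne.symm a2)
      | exact no4 h6 s1 hb hb' ‹_› (Ne.symm b1) (Ne.symm b2)
      | exact no4 h6 huv hc hc' ‹_› (Ne.symm c1) (Ne.symm c2)
      | exact no4 h6 huv hd hd' ‹_› (Ne.symm d1) (Ne.symm d2)
      | exact no4 h6 ha ha' s7 s3 (Ne.symm a2) ab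
      | exact no4 h6 hc hc' s9 s5 (Ne.symm c2) cd
      | exact no5 h6 s1 ha ha' s8 s4
      | exact no5 h6 s1 ha ha' s9 s5
      | exact no5 h6 s1 hb hb' s8 s4
      | exact no5 h6 s1 hb hb' s9 s5
      | grind [H.irrefl]
  have := hnd.length_le_card
  simp only [List.length_cons, List.length_nil, Fintype.card_fin] at this
  omega

def E : List (Fin 12 × Fin 12) :=
  [(0, 4), (0, 5), (1, 3), (1, 5), (2, 3), (2, 4), (0, 6), (6, 7), (7, 3), (1, 8), (8, 9), (9, 4),
   (2, 10), (10, 11), (11, 5)]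

def G : SimpleGraph (Fin 12) where
  Adj a b := (a, b) ∈ E ∨ (b, a) ∈ E
  symm := ⟨fun _ _ h => h.symm⟩
  loopless := ⟨by decide⟩

instance : DecidableRel G.Adj := fun a b => inferInstanceAs (Decidable ((a, b) ∈ E ∨ (b, a) ∈ E))

set_option synthInstance.maxSize 4000 in
lemma G_girth : G.girth = 6 := by
  have h1 : 6 ≤ G.egirth := six_le (by decide +kernel) (by decide +kernel) (by decide +kernel)
  have h2 : G.egirth ≤ 6 := by
    let w : G.Walk 0 0 := .cons (show G.Adj 0 4 by decide) (.cons (show G.Adj 4 2 by decide)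
      (.cons (show G.Adj 2 3 by decide) (.cons (show G.Adj 3 1 by decide)
      (.cons (show G.Adj 1 5 by decide) (.cons (show G.Adj 5 0 by decide) .nil)))))
    have hw : w.IsCycle := by
      simp [w, Walk.isCycle_def, Walk.isTrail_def]
    exact le_egirth.1 le_rfl 0 w hw
  simp [girth, le_antisymm h2 h1]

theorem result :
    ∃ (n : ℕ) (H : SimpleGraph (Fin n)), Extremal 6 H ∧
      ∃ a b, H.Adj a b ∧ (H.neighborSet a).ncard = 2 ∧ (H.neighborSet b).ncard = 2 := by
  have hdeg : ∀ v, (G.neighborSet v).ncard = G.degree v := fun v => by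
    rw [Set.ncard_eq_toFinset_card']; rfl
  refine ⟨12, G, ⟨⟨?_, ?_⟩, G_girth, lower⟩, 6, 7, by decide, ?_, ?_⟩
  · simp only [hdeg]
    rw [Set.ncard_eq_toFinset_card']
    decide +kernel
  · simp only [hdeg]
    rw [Set.ncard_eq_toFinset_card']
    decide +kernel
  · rw [hdeg]; decide +kernel
  · rw [hdeg]; decide +kernel

end Pool.Agent.Results.MP_6c91b3_co.GirthSix
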